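import Mathlib

/-!
# Twisted graphs over a hexagonal torus: definitions and the pebble strategy

Every gadget (a vertex of the hexagonal torus) has four inner vertices, indexed by `Bool × Bool`
(an even triple of bits), and for each of its three ports a pair of outer vertices.
-/

set_option autoImplicit false

namespace Pool.Agent.H794R3.Disk

/-- gadgets: cell and side -/
abbrev Gad (N : ℕ) := ZMod N × ZMod N × Bool

/-- locations of the edges of the base graph -/
abbrev Loc (N : ℕ) := ZMod N × ZMod N × Fin 3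

/-- the bits of the even triple coded by a pair of bits -/
def bit (b : Bool × Bool) (p : Fin 3) : Bool :=
  if p = 0 then b.1 else if p = 1 then b.2 else xor b.1 b.2

/-- the edge of the base graph at a port -/
def loc {N : ℕ} (g : Gad N) (p : Fin 3) : Loc N :=
  if g.2.2 = false then (g.1, g.2.1, p)
  else if p = 0 then (g.1, g.2.1, p)
  else if p = 1 then (g.1 + 1, g.2.1, p)
  else (g.1, g.2.1 + 1, p)

/-- vertices: inner and outer -/
abbrev Vx (N : ℕ) := (Gad N × (Bool × Bool)) ⊕ (Gad N × Fin 3 × Bool)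

/-- adjacency, with a rank function on the gadgets and a set of twisted edges -/
def adj {N : ℕ} (rk : Gad N → ℕ) (tw : Loc N → Bool) : Vx N → Vx N → Prop
  | Sum.inl a, Sum.inl b => a ≠ b
  | Sum.inl (w, b), Sum.inr (v, p, x) => rk v < rk w ∨ (v = w ∧ bit b p = x)
  | Sum.inr (v, p, x), Sum.inl (w, b) => rk v < rk w ∨ (v = w ∧ bit b p = x)
  | Sum.inr (v, p, x), Sum.inr (v', p', x') =>
      v.2.2 ≠ v'.2.2 ∧ loc v p = loc v' p' ∧ xor x x' = tw (loc v p)

/-- the graph -/
def gr {N : ℕ} (rk : Gad N → ℕ) (tw : Loc N → Bool) : SimpleGraph (Vx N) where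
  Adj := adj rk tw
  symm := ⟨by
    rintro (⟨w, b⟩ | ⟨v, p, x⟩) (⟨w', b'⟩ | ⟨v', p', x'⟩) h
    · exact Ne.symm h
    · exact h
    · exact h
    · refine ⟨Ne.symm h.1, h.2.1.symm, ?_⟩
      rw [← h.2.1, Bool.xor_comm]; exact h.2.2⟩
  loopless := ⟨by
    rintro (⟨w, b⟩ | ⟨v, p, x⟩) h
    · exact h rfl
    · exact h.1 rfl⟩

/-- the shift of a gadget-wise family of even triples -/
def shift {N : ℕ} (s : Gad N → Bool × Bool) : Vx N → Vx N
  | Sum.inl (w, b) => Sum.inl (w, (xor b.1 (s w).1, xor b.2 (s w).2))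
  | Sum.inr (v, p, x) => Sum.inr (v, p, xor x (bit (s v) p))

/-- the gadget of a vertex -/
def gad {N : ℕ} : Vx N → Gad N
  | Sum.inl (w, _) => w
  | Sum.inr (v, _, _) => v

theorem gad_shift {N : ℕ} (s : Gad N → Bool × Bool) (v : Vx N) : gad (shift s v) = gad v := by
  rcases v with ⟨w, b⟩ | ⟨v, p, x⟩ <;> rfl

theorem shift_shift {N : ℕ} (s : Gad N → Bool × Bool) (v : Vx N) : shift s (shift s v) = v := by
  rcases v with ⟨w, b⟩ | ⟨v, p, x⟩ <;> simp [shift]

theorem shift_congr {N : ℕ} {s s' : Gad N → Bool × Bool} {v : Vx N} (h : s (gad v) = s' (gad v)) :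
    shift s v = shift s' v := by
  rcases v with ⟨w, b⟩ | ⟨v, p, x⟩ <;> simp only [gad] at h <;> simp [shift, h]

theorem shift_injective {N : ℕ} (s : Gad N → Bool × Bool) : Function.Injective (shift s) :=
  fun a b h => by rw [← shift_shift s a, h, shift_shift]

theorem bit_xor (b c : Bool × Bool) (p : Fin 3) :
    bit (xor b.1 c.1, xor b.2 c.2) p = xor (bit b p) (bit c p) := by
  unfold bit
  split_ifs
  · rfl
  · rfl
  · rcases b with ⟨b1, b2⟩; rcases c with ⟨c1, c2⟩
    cases b1 <;> cases b2 <;> cases c1 <;> cases c2 <;> rfl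

/-- the shift `s` turns the untwisted graph into the graph twisted at the origin, up to
one bad edge, at the cell `(i, j)` -/
def Good {N : ℕ} (s : Gad N → Bool × Bool) (i j : ZMod N) : Prop :=
  (∀ a b, xor (bit (s (a, b, false)) 0) (bit (s (a, b, true)) 0) =
    xor (decide (a = 0 ∧ b = 0)) (decide (a = i ∧ b = j))) ∧
  (∀ a b, bit (s (a + 1, b, false)) 1 = bit (s (a, b, true)) 1) ∧
  (∀ a b, bit (s (a, b + 1, false)) 2 = bit (s (a, b, true)) 2)

theorem good_zero (N : ℕ) : Good (N := N) (fun _ => (false, false)) 0 0 := by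
  refine ⟨fun a b => ?_, fun a b => rfl, fun a b => rfl⟩
  simp [bit]

/-- toggling a family -/
def tog {N : ℕ} (s d : Gad N → Bool × Bool) : Gad N → Bool × Bool :=
  fun g => (xor (s g).1 (d g).1, xor (s g).2 (d g).2)

theorem bit_tog {N : ℕ} (s d : Gad N → Bool × Bool) (g : Gad N) (p : Fin 3) :
    bit (tog s d g) p = xor (bit (s g) p) (bit (d g) p) := bit_xor _ _ _

theorem bool_aux (A B t c c' : Bool) (h : xor A B = xor t c) :
    xor (xor A c') (xor B c) = xor t c' := by
  revert h; cases A <;> cases B <;> cases t <;> cases c <;> cases c' <;> decide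

theorem good_step1 {N : ℕ} {s : Gad N → Bool × Bool} {i j : ZMod N} (h : Good s i j) :
    ∃ s', Good s' (i + 1) j ∧ ∀ g : Gad N, g.2.1 ≠ j → s' g = s g := by
  classical
  let d : Gad N → Bool × Bool := fun g =>
    if (g.1 = i ∧ g.2.1 = j ∧ g.2.2 = true) ∨ (g.1 = i + 1 ∧ g.2.1 = j ∧ g.2.2 = false) then
      (true, true) else (false, false)
  refine ⟨tog s d, ⟨fun a b => ?_, fun a b => ?_, fun a b => ?_⟩, ?_⟩
  · have h1 := h.1 a b
    rw [bit_tog, bit_tog]
    have e1 : bit (d (a, b, false)) 0 = decide (a = i + 1 ∧ b = j) := by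
      simp only [d, bit]
      by_cases h2 : a = i + 1 ∧ b = j <;> simp [h2]
    have e2 : bit (d (a, b, true)) 0 = decide (a = i ∧ b = j) := by
      simp only [d, bit]
      by_cases h2 : a = i ∧ b = j <;> simp [h2]
    rw [e1, e2]
    exact bool_aux _ _ _ _ _ h1
  · have h1 := h.2.1 a b
    rw [bit_tog, bit_tog, h1]
    congr 1
    simp only [d, bit]
    by_cases h2 : a = i ∧ b = j <;> simp [h2]
  · have h1 := h.2.2 a b
    rw [bit_tog, bit_tog, h1]
    congr 1
    simp only [d, bit]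
    split_ifs <;> simp_all
  · intro g hg
    simp [tog, d, hg]

theorem good_step2 {N : ℕ} {s : Gad N → Bool × Bool} {i j : ZMod N} (h : Good s i j) :
    ∃ s', Good s' i (j + 1) ∧ ∀ g : Gad N, g.1 ≠ i → s' g = s g := by
  classical
  let d : Gad N → Bool × Bool := fun g =>
    if (g.1 = i ∧ g.2.1 = j ∧ g.2.2 = true) ∨ (g.1 = i ∧ g.2.1 = j + 1 ∧ g.2.2 = false) then
      (true, false) else (false, false)
  refine ⟨tog s d, ⟨fun a b => ?_, fun a b => ?_, fun a b => ?_⟩, ?_⟩
  · have h1 := h.1 a b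
    rw [bit_tog, bit_tog]
    have e1 : bit (d (a, b, false)) 0 = decide (a = i ∧ b = j + 1) := by
      simp only [d, bit]
      by_cases h2 : a = i ∧ b = j + 1 <;> simp [h2]
    have e2 : bit (d (a, b, true)) 0 = decide (a = i ∧ b = j) := by
      simp only [d, bit]
      by_cases h2 : a = i ∧ b = j <;> simp [h2]
    rw [e1, e2]
    exact bool_aux _ _ _ _ _ h1
  · have h1 := h.2.1 a b
    rw [bit_tog, bit_tog, h1]
    congr 1
    simp only [d, bit]
    split_ifs <;> simp_all
  · have h1 := h.2.2 a b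
    rw [bit_tog, bit_tog, h1]
    congr 1
    simp only [d, bit]
    by_cases h2 : a = i ∧ b = j <;> simp [h2]
  · intro g hg
    simp [tog, d, hg]

theorem good_move {N : ℕ} [NeZero N] {s : Gad N → Bool × Bool} {i j : ZMod N} (h : Good s i j)
    (i' j' : ZMod N) :
    ∃ s', Good s' i' j' ∧ ∀ g : Gad N, g.1 ≠ i → g.2.1 ≠ j' → s' g = s g := by
  have step2 : ∀ m : ℕ, ∃ s', Good s' i (j + (m : ZMod N)) ∧ ∀ g : Gad N, g.1 ≠ i → s' g = s g := by
    intro m
    induction m with
    | zero => exact ⟨s, by simpa using h, fun _ _ => rfl⟩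
    | succ m ih =>
      obtain ⟨s1, h1, h2⟩ := ih
      obtain ⟨s2, h3, h4⟩ := good_step2 h1
      refine ⟨s2, by push_cast; rw [← add_assoc]; exact h3, fun g hg => ?_⟩
      rw [h4 g hg, h2 g hg]
  obtain ⟨s1, h1, h2⟩ := step2 (j' - j).val
  have e1 : j + ((j' - j).val : ZMod N) = j' := by
    rw [ZMod.natCast_zmod_val]; ring
  rw [e1] at h1
  have step1 : ∀ m : ℕ, ∃ s', Good s' (i + (m : ZMod N)) j' ∧ ∀ g : Gad N, g.2.1 ≠ j' → s' g = s1 g := by
    intro m
    induction m with
    | zero => exact ⟨s1, by simpa using h1, fun _ _ => rfl⟩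
    | succ m ih =>
      obtain ⟨s3, h3, h4⟩ := ih
      obtain ⟨s4, h5, h6⟩ := good_step1 h3
      refine ⟨s4, by push_cast; rw [← add_assoc]; exact h5, fun g hg => ?_⟩
      rw [h6 g hg, h4 g hg]
  obtain ⟨s3, h3, h4⟩ := step1 (i' - i).val
  have e2 : i + ((i' - i).val : ZMod N) = i' := by
    rw [ZMod.natCast_zmod_val]; ring
  rw [e2] at h3
  exact ⟨s3, h3, fun g hg hg' => by rw [h4 g hg', h2 g hg]⟩

end Pool.Agent.H794R3.Disk
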