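import Pool.Agent.H794R3.Disk.Defs

set_option autoImplicit false

namespace Pool.Agent.H794R3.Disk

/-- no twist -/
def tw0 {N : ℕ} : Loc N → Bool := fun _ => false

/-- a twist at the origin -/
def tw1 {N : ℕ} : Loc N → Bool := fun l => decide (l = (0, 0, 0))

theorem bool_aux2 (x x' A B t : Bool) (h : xor A B = t) :
    (xor x x' = false) ↔ xor (xor x A) (xor x' B) = t := by
  subst h; cases x <;> cases x' <;> cases A <;> cases B <;> decide

theorem good_cross {N : ℕ} {s : Gad N → Bool × Bool} {i j : ZMod N} (h : Good s i j)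
    (a b a' b' : ZMod N) (p p' : Fin 3) (hl : loc (a, b, false) p = loc (a', b', true) p')
    (ha : ¬ (a = i ∧ b = j)) :
    xor (bit (s (a, b, false)) p) (bit (s (a', b', true)) p') =
      tw1 (loc (a, b, false) p) := by
  unfold loc at hl ⊢
  fin_cases p'
  · simp at hl
    obtain ⟨rfl, rfl, rfl⟩ := hl
    have h1 := h.1 a b
    simp [ha] at h1
    simp [tw1, h1]
  · simp at hl
    obtain ⟨rfl, rfl, rfl⟩ := hl
    have h1 := h.2.1 a' b
    simp [tw1, h1]
  · simp at hl
    obtain ⟨rfl, rfl, rfl⟩ := hl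
    have h1 := h.2.2 a b'
    simp [tw1, h1]

theorem adj_shift {N : ℕ} (rk : Gad N → ℕ) {s : Gad N → Bool × Bool} {i j : ZMod N}
    (h : Good s i j) (u v : Vx N) (hu : (gad u).1 ≠ i) (hv : (gad v).1 ≠ i) :
    (gr rk tw0).Adj u v ↔ (gr rk tw1).Adj (shift s u) (shift s v) := by
  rcases u with ⟨w, b⟩ | ⟨w, p, x⟩ <;> rcases v with ⟨w', b'⟩ | ⟨w', p', x'⟩
  · constructor
    · intro h h2
      apply h
      have h3 : shift s (Sum.inl (w, b)) = shift s (Sum.inl (w', b')) := congrArg Sum.inl h2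
      exact Sum.inl_injective (shift_injective s h3)
    · intro h h2
      apply h
      have h3 : shift s (Sum.inl (w, b)) = shift s (Sum.inl (w', b')) := by rw [h2]
      exact Sum.inl_injective h3
  · simp only [gr, adj, shift]
    rw [bit_xor]
    constructor
    · rintro (h | ⟨rfl, rfl⟩)
      · exact Or.inl h
      · exact Or.inr ⟨rfl, rfl⟩
    · rintro (h | ⟨rfl, h⟩)
      · exact Or.inl h
      · exact Or.inr ⟨rfl, by simpa using h⟩
  · simp only [gr, adj, shift]
    rw [bit_xor]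
    constructor
    · rintro (h | ⟨rfl, rfl⟩)
      · exact Or.inl h
      · exact Or.inr ⟨rfl, rfl⟩
    · rintro (h | ⟨rfl, h⟩)
      · exact Or.inl h
      · exact Or.inr ⟨rfl, by simpa using h⟩
  · simp only [gr, adj, shift, gad, tw0] at *
    obtain ⟨a, b, σ⟩ := w
    obtain ⟨a', b', σ'⟩ := w'
    simp only at *
    constructor
    · rintro ⟨h1, h2, h3⟩
      refine ⟨h1, h2, ?_⟩
      cases σ <;> cases σ' <;> simp at h1
      · exact (bool_aux2 x x' _ _ _ (good_cross h _ _ _ _ _ _ h2 (fun h => hu h.1))).1 h3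
      · rw [h2]
        have h4 := good_cross h _ _ _ _ _ _ h2.symm (fun h => hv h.1)
        rw [Bool.xor_comm] at h4
        exact (bool_aux2 x x' _ _ _ h4).1 h3
    · rintro ⟨h1, h2, h3⟩
      refine ⟨h1, h2, ?_⟩
      cases σ <;> cases σ' <;> simp at h1
      · exact (bool_aux2 x x' _ _ _ (good_cross h _ _ _ _ _ _ h2 (fun h => hu h.1))).2 h3
      · rw [h2] at h3
        have h4 := good_cross h _ _ _ _ _ _ h2.symm (fun h => hv h.1)
        rw [Bool.xor_comm] at h4
        exact (bool_aux2 x x' _ _ _ h4).2 h3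

/-- positions -/
def Pos (k N : ℕ) : Set ((Fin k → Vx N) × (Fin k → Vx N)) :=
  {p | ∃ s i j, Good s i j ∧ (∀ a, p.2 a = shift s (p.1 a)) ∧
    ∀ a, (gad (p.1 a)).1 ≠ i ∧ (gad (p.1 a)).2.1 ≠ j}

theorem exists_avoid {N : ℕ} [NeZero N] (S : Finset (ZMod N)) (h : S.card < N) :
    ∃ x, x ∉ S := by
  by_contra hc
  push Not at hc
  have h1 : S = Finset.univ := Finset.eq_univ_iff_forall.2 hc
  rw [h1, Finset.card_univ, ZMod.card] at h
  exact lt_irrefl _ h

/-- the bijection glued from shifts -/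
def glue {N : ℕ} (F : ZMod N → ZMod N → Gad N → Bool × Bool) : Vx N ≃ Vx N :=
  Function.Involutive.toPerm (fun v => shift (F (gad v).1 (gad v).2.1) v) (fun v => by
    simp only [gad_shift, shift_shift])

theorem glue_apply {N : ℕ} (F : ZMod N → ZMod N → Gad N → Bool × Bool) (v : Vx N) :
    glue F v = shift (F (gad v).1 (gad v).2.1) v := rfl

theorem game (k N : ℕ) [NeZero N] (hN : k + 1 < N) (rk : Gad N → ℕ) :
    (∀ p ∈ Pos k N, ∀ a b : Fin k, (p.1 a = p.1 b ↔ p.2 a = p.2 b) ∧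
      ((gr rk tw0).Adj (p.1 a) (p.1 b) ↔ (gr rk tw1).Adj (p.2 a) (p.2 b))) ∧
    (∀ p ∈ Pos k N, ∀ a : Fin k, ∃ f : Vx N ≃ Vx N, ∀ v : Vx N,
      (Function.update p.1 a v, Function.update p.2 a (f v)) ∈ Pos k N) ∧
    (∃ f : Vx N ≃ Vx N, ∀ v : Vx N,
      ((fun _ : Fin k => v), (fun _ : Fin k => f v)) ∈ Pos k N) := by
  classical
  refine ⟨?_, ?_, ?_⟩
  · rintro ⟨p, q⟩ ⟨s, i, j, hg, hq, hp⟩ a b
    simp only at hq hp ⊢
    rw [hq a, hq b]
    exact ⟨(shift_injective s).eq_iff.symm, adj_shift rk hg _ _ (hp a).1 (hp b).1⟩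
  · rintro ⟨p, q⟩ ⟨s, i, j, hg, hq, hp⟩ a
    simp only at hq hp ⊢
    have key : ∀ x y : ZMod N, ∃ s' : Gad N → Bool × Bool, ∃ i' j', Good s' i' j' ∧ i' ≠ x ∧
        j' ≠ y ∧ (∀ b, (gad (p b)).1 ≠ i' ∧ (gad (p b)).2.1 ≠ j') ∧
        ∀ b, s' (gad (p b)) = s (gad (p b)) := by
      intro x y
      obtain ⟨i', hi'⟩ := exists_avoid (insert x (Finset.univ.image fun b => (gad (p b)).1)) (by
        refine lt_of_le_of_lt (Finset.card_insert_le _ _) ?_
        refine lt_of_le_of_lt (Nat.add_le_add_right Finset.card_image_le 1) ?_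
        simpa using hN)
      obtain ⟨j', hj'⟩ := exists_avoid (insert y (Finset.univ.image fun b => (gad (p b)).2.1)) (by
        refine lt_of_le_of_lt (Finset.card_insert_le _ _) ?_
        refine lt_of_le_of_lt (Nat.add_le_add_right Finset.card_image_le 1) ?_
        simpa using hN)
      simp only [Finset.mem_insert, Finset.mem_image, Finset.mem_univ, true_and, not_or,
        not_exists] at hi' hj'
      obtain ⟨s', h1, h2⟩ := good_move hg i' j'
      exact ⟨s', i', j', h1, hi'.1, hj'.1, fun b => ⟨hi'.2 b, hj'.2 b⟩,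
        fun b => h2 _ (hp b).1 (hj'.2 b)⟩
    choose F I J hF1 hF2 hF3 hF4 hF5 using key
    refine ⟨glue F, fun v => ⟨F (gad v).1 (gad v).2.1, I (gad v).1 (gad v).2.1,
      J (gad v).1 (gad v).2.1, hF1 _ _, fun b => ?_, fun b => ?_⟩⟩
    · by_cases hb : b = a
      · subst hb; simp [glue_apply]
      · simp only [Function.update_of_ne hb]
        rw [hq b]
        exact shift_congr (hF5 _ _ b).symm
    · by_cases hb : b = a
      · subst hb
        simp only [Function.update_self]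
        exact ⟨(hF2 _ _).symm, (hF3 _ _).symm⟩
      · simp only [Function.update_of_ne hb]
        exact hF4 _ _ b
  · have key : ∀ x y : ZMod N, ∃ s' : Gad N → Bool × Bool, ∃ i' j', Good s' i' j' ∧ i' ≠ x ∧
        j' ≠ y := by
      intro x y
      obtain ⟨i', hi'⟩ := exists_avoid {x} (by simp; omega)
      obtain ⟨j', hj'⟩ := exists_avoid {y} (by simp; omega)
      simp only [Finset.mem_singleton] at hi' hj'
      obtain ⟨s', h1, h2⟩ := good_move (good_zero N) i' j'
      exact ⟨s', i', j', h1, hi', hj'⟩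
    choose F I J hF1 hF2 hF3 using key
    exact ⟨glue F, fun v => ⟨F (gad v).1 (gad v).2.1, I (gad v).1 (gad v).2.1,
      J (gad v).1 (gad v).2.1, hF1 _ _, fun b => rfl, fun b =>
        ⟨(hF2 _ _).symm, (hF3 _ _).symm⟩⟩⟩

end Pool.Agent.H794R3.Disk
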