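import Pool.Agent.H794R3.Disk.Defs

set_option autoImplicit false

open Filter Topology

namespace Pool.Agent.H794R3.Disk

/-- the sign of a bit -/
def sg (x : Bool) : ℝ := if x then -1 else 1

theorem sg_false : sg false = 1 := by simp [sg]
theorem sg_true : sg true = -1 := by simp [sg]

theorem wt_aux (b0 b1 b2 : ℝ) (h0 : b0 ≠ 0) (h : 0 < b1 * b2) :
    ∃ w0 w : ℝ, 0 < w0 ∧ 0 < w ∧ b0 * w0 + (b1 + b2) * w = b0 * b1 * b2 := by
  set t := b1 * b2 with ht
  have hA : 0 < 2 * (|(b1 + b2) / b0| + 1) := by positivity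
  refine ⟨t - (b1 + b2) / b0 * (t / (2 * (|(b1 + b2) / b0| + 1))),
    t / (2 * (|(b1 + b2) / b0| + 1)), ?_, by positivity, ?_⟩
  · have h1 : (b1 + b2) / b0 * (t / (2 * (|(b1 + b2) / b0| + 1))) ≤
        |(b1 + b2) / b0| * (t / (2 * (|(b1 + b2) / b0| + 1))) := by
      apply mul_le_mul_of_nonneg_right (le_abs_self _) (by positivity)
    have h2 : |(b1 + b2) / b0| * (t / (2 * (|(b1 + b2) / b0| + 1))) < t := by
      rw [mul_div_assoc', div_lt_iff₀ hA]
      have := abs_nonneg ((b1 + b2) / b0)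
      nlinarith
    linarith
  · field_simp
    ring

theorem wt (b0 b1 b2 : ℝ) (h0 : b0 ≠ 0) (h1 : b1 ≠ 0) (h2 : b2 ≠ 0) :
    ∃ w0 w1 w2 : ℝ, 0 < w0 ∧ 0 < w1 ∧ 0 < w2 ∧
      b0 * w0 + b1 * w1 + b2 * w2 = b0 * b1 * b2 := by
  by_cases c0 : 0 < b1 * b2
  · obtain ⟨w0, w, h3, h4, h5⟩ := wt_aux b0 b1 b2 h0 c0
    exact ⟨w0, w, w, h3, h4, h4, by linear_combination h5⟩
  by_cases c1 : 0 < b0 * b2
  · obtain ⟨w0, w, h3, h4, h5⟩ := wt_aux b1 b0 b2 h1 c1
    exact ⟨w, w0, w, h4, h3, h4, by linear_combination h5⟩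
  have c2 : 0 < b0 * b1 := by
    have e1 : b1 * b2 < 0 := lt_of_le_of_ne (not_lt.1 c0) (mul_ne_zero h1 h2)
    have e2 : b0 * b2 < 0 := lt_of_le_of_ne (not_lt.1 c1) (mul_ne_zero h0 h2)
    have e3 : 0 < (b1 * b2) * (b0 * b2) := mul_pos_of_neg_of_neg e1 e2
    have e4 : (b1 * b2) * (b0 * b2) = (b0 * b1) * b2 ^ 2 := by ring
    rw [e4] at e3
    exact (pos_iff_pos_of_mul_pos e3).2 (by positivity)
  obtain ⟨w0, w, h3, h4, h5⟩ := wt_aux b2 b0 b1 h2 c2
  exact ⟨w, w, w0, h4, h4, h3, by linear_combination h5⟩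

/-- four points separated in three given pairwise nonparallel directions -/
theorem four_pts (nx ny : Fin 3 → ℝ) (h01 : nx 0 * ny 1 - nx 1 * ny 0 ≠ 0)
    (h12 : nx 1 * ny 2 - nx 2 * ny 1 ≠ 0) (h20 : nx 2 * ny 0 - nx 0 * ny 2 ≠ 0) :
    ∃ τ : Fin 3 → ℝ, ∀ b : Bool × Bool, ∃ u : ℝ × ℝ, ∀ p,
      0 < sg (bit b p) * (nx p * u.1 + ny p * u.2 - τ p) := by
  set α0 := nx 1 * ny 2 - nx 2 * ny 1 with hα0
  set α1 := nx 2 * ny 0 - nx 0 * ny 2 with hα1
  set α2 := nx 0 * ny 1 - nx 1 * ny 0 with hα2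
  refine ⟨fun p => if p = 0 then -(α1 * α2) else 0, fun b => ?_⟩
  have hs : ∀ x, sg x ≠ 0 := by intro x; cases x <;> simp [sg]
  have hs2 : ∀ x, sg x * sg x = 1 := by intro x; cases x <;> simp [sg]
  have hs3 : sg (bit b 0) * sg (bit b 1) * sg (bit b 2) = 1 := by
    obtain ⟨b1, b2⟩ := b
    cases b1 <;> cases b2 <;> simp [sg, bit]
  set e0 := sg (bit b 0) with he0
  set e1 := sg (bit b 1) with he1
  set e2 := sg (bit b 2) with he2
  obtain ⟨w0, w1, w2, hw0, hw1, hw2, hw⟩ := wt (α0 * e0) (α1 * e1) (α2 * e2)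
    (mul_ne_zero h12 (hs _)) (mul_ne_zero h20 (hs _)) (mul_ne_zero h01 (hs _))
  have hw' : α0 * e0 * w0 + α1 * e1 * w1 + α2 * e2 * w2 = α0 * α1 * α2 := by
    rw [hw]; linear_combination α0 * α1 * α2 * hs3
  set y0 := -(α1 * α2) + e0 * w0 with hy0
  set y1 := e1 * w1 with hy1
  set y2 := e2 * w2 with hy2
  have hy : α0 * y0 + α1 * y1 + α2 * y2 = 0 := by
    rw [hy0, hy1, hy2]; linear_combination hw'
  have hsq0 := hs2 (bit b 0)
  have hsq1 := hs2 (bit b 1)
  have hsq2 := hs2 (bit b 2)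
  rw [← he0] at hsq0
  rw [← he1] at hsq1
  rw [← he2] at hsq2
  have i0 : nx 0 * ((y0 * ny 1 - y1 * ny 0) / α2) + ny 0 * ((nx 0 * y1 - nx 1 * y0) / α2) = y0 := by
    field_simp
    rw [hα2]; ring
  have i1 : nx 1 * ((y0 * ny 1 - y1 * ny 0) / α2) + ny 1 * ((nx 0 * y1 - nx 1 * y0) / α2) = y1 := by
    field_simp
    rw [hα2]; ring
  have i2 : nx 2 * ((y0 * ny 1 - y1 * ny 0) / α2) + ny 2 * ((nx 0 * y1 - nx 1 * y0) / α2) = y2 := by
    field_simp
    have : α2 * y2 = -(α0 * y0 + α1 * y1) := by linear_combination hy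
    rw [this, hα0, hα1]; ring
  refine ⟨((y0 * ny 1 - y1 * ny 0) / α2, (nx 0 * y1 - nx 1 * y0) / α2), fun p => ?_⟩
  fin_cases p
  · show 0 < e0 * (nx 0 * ((y0 * ny 1 - y1 * ny 0) / α2) + ny 0 * ((nx 0 * y1 - nx 1 * y0) / α2)
      - (if (0 : Fin 3) = 0 then -(α1 * α2) else 0))
    rw [i0, if_pos rfl, hy0]
    have : e0 * (-(α1 * α2) + e0 * w0 - -(α1 * α2)) = w0 := by
      linear_combination w0 * hsq0
    rw [this]; exact hw0
  · show 0 < e1 * (nx 1 * ((y0 * ny 1 - y1 * ny 0) / α2) + ny 1 * ((nx 0 * y1 - nx 1 * y0) / α2)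
      - (if (1 : Fin 3) = 0 then -(α1 * α2) else 0))
    rw [i1, if_neg (by decide), hy1]
    have : e1 * (e1 * w1 - 0) = w1 := by linear_combination w1 * hsq1
    rw [this]; exact hw1
  · show 0 < e2 * (nx 2 * ((y0 * ny 1 - y1 * ny 0) / α2) + ny 2 * ((nx 0 * y1 - nx 1 * y0) / α2)
      - (if (2 : Fin 3) = 0 then -(α1 * α2) else 0))
    rw [i2, if_neg (by decide), hy2]
    have : e2 * (e2 * w2 - 0) = w2 := by linear_combination w2 * hsq2
    rw [this]; exact hw2

/-- rational points of the circle -/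
noncomputable def dx (t : ℝ) : ℝ := (1 - t ^ 2) / (1 + t ^ 2)
/-- rational points of the circle -/
noncomputable def dy (t : ℝ) : ℝ := 2 * t / (1 + t ^ 2)

theorem dxy (t : ℝ) : dx t ^ 2 + dy t ^ 2 = 1 := by
  unfold dx dy
  have : 1 + t ^ 2 ≠ 0 := by positivity
  field_simp
  ring

theorem dy_pos {t : ℝ} (h : 0 < t) : 0 < dy t := by
  unfold dy; positivity

theorem cross_ne {t s : ℝ} (ht : 0 < t) (hs : 0 < s) (h : t ≠ s) :
    dx t * dy s - dx s * dy t ≠ 0 := by
  have h1 : dx t * dy s - dx s * dy t = 2 * (s - t) * (1 + t * s) / ((1 + t ^ 2) * (1 + s ^ 2)) := by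
    unfold dx dy
    have h2 : 1 + t ^ 2 ≠ 0 := by positivity
    have h3 : 1 + s ^ 2 ≠ 0 := by positivity
    field_simp
    ring
  rw [h1]
  apply div_ne_zero
  · apply mul_ne_zero
    · apply mul_ne_zero two_ne_zero (sub_ne_zero.2 (Ne.symm h))
    · positivity
  · positivity

theorem ev_lt {f : ℝ → ℝ} (hf : Continuous f) (h : f 0 < 0) : ∀ᶠ e in 𝓝[>] (0 : ℝ), f e < 0 :=
  (hf.continuousAt.eventually_lt continuousAt_const h).filter_mono nhdsWithin_le_nhds

theorem tangent_le {A nx ny ux uy κ : ℝ} (hA : 0 < A) (hn : nx ^ 2 + ny ^ 2 = 1)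
    (h : 0 < nx * ux + ny * uy + κ) : ∀ᶠ e in 𝓝[>] (0 : ℝ),
      Real.sqrt ((e * ux - A * nx) ^ 2 + (e * uy - A * ny) ^ 2) ≤ A + e * κ := by
  have h1 : ∀ᶠ e in 𝓝[>] (0 : ℝ), e * (ux ^ 2 + uy ^ 2 - κ ^ 2) -
      2 * A * (nx * ux + ny * uy + κ) < 0 := ev_lt (by fun_prop) (by
        have : 0 < A * (nx * ux + ny * uy + κ) := mul_pos hA h
        linarith)
  have h2 : ∀ᶠ e in 𝓝[>] (0 : ℝ), -(A + e * κ) < 0 := ev_lt (by fun_prop) (by linarith)
  filter_upwards [h1, h2, self_mem_nhdsWithin] with e h1 h2 he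
  have he' : 0 < e := he
  rw [Real.sqrt_le_left (by linarith)]
  have h3 := mul_neg_of_pos_of_neg he' h1
  have h4 : (e * ux - A * nx) ^ 2 + (e * uy - A * ny) ^ 2 - (A + e * κ) ^ 2 =
      e * (e * (ux ^ 2 + uy ^ 2 - κ ^ 2) - 2 * A * (nx * ux + ny * uy + κ)) +
        A ^ 2 * (nx ^ 2 + ny ^ 2 - 1) := by ring
  rw [hn] at h4
  linarith

theorem tangent_lt {A nx ny ux uy κ : ℝ} (hA : 0 < A) (hn : nx ^ 2 + ny ^ 2 = 1)
    (h : nx * ux + ny * uy + κ < 0) : ∀ᶠ e in 𝓝[>] (0 : ℝ),
      A + e * κ < Real.sqrt ((e * ux - A * nx) ^ 2 + (e * uy - A * ny) ^ 2) := by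
  have h1 : ∀ᶠ e in 𝓝[>] (0 : ℝ), -(e * (ux ^ 2 + uy ^ 2 - κ ^ 2)) +
      2 * A * (nx * ux + ny * uy + κ) < 0 := ev_lt (by fun_prop) (by
        have : A * (nx * ux + ny * uy + κ) < 0 := mul_neg_of_pos_of_neg hA h
        linarith)
  have h2 : ∀ᶠ e in 𝓝[>] (0 : ℝ), -(A + e * κ) < 0 := ev_lt (by fun_prop) (by linarith)
  filter_upwards [h1, h2, self_mem_nhdsWithin] with e h1 h2 he
  have he' : 0 < e := he
  rw [Real.lt_sqrt (by linarith)]
  have h3 := mul_neg_of_pos_of_neg he' h1
  have h4 : (A + e * κ) ^ 2 - ((e * ux - A * nx) ^ 2 + (e * uy - A * ny) ^ 2) =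
      e * (-(e * (ux ^ 2 + uy ^ 2 - κ ^ 2)) + 2 * A * (nx * ux + ny * uy + κ)) -
        A ^ 2 * (nx ^ 2 + ny ^ 2 - 1) := by ring
  rw [hn] at h4
  linarith

theorem dist_pt (a b c d : ℝ) :
    dist (!₂[a, b] : EuclideanSpace ℝ (Fin 2)) !₂[c, d] = Real.sqrt ((a - c) ^ 2 + (b - d) ^ 2) := by
  rw [EuclideanSpace.dist_eq]
  simp [Fin.sum_univ_two, Real.dist_eq, sq_abs]

/-- the parameter of a location -/
noncomputable def par {N : ℕ} [NeZero N] (l : Loc N) : ℝ :=
  ((Fintype.equivFin (Loc N) l).val : ℝ) + 1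

theorem par_pos {N : ℕ} [NeZero N] (l : Loc N) : 0 < par l := by unfold par; positivity

theorem par_inj {N : ℕ} [NeZero N] {l l' : Loc N} (h : par l = par l') : l = l' := by
  unfold par at h
  have h1 : (Fintype.equivFin (Loc N) l).val = (Fintype.equivFin (Loc N) l').val := by
    exact_mod_cast add_right_cancel h
  exact (Fintype.equivFin (Loc N)).injective (Fin.ext h1)

theorem loc_port {N : ℕ} (v : Gad N) (p : Fin 3) : (loc v p).2.2 = p := by
  unfold loc; split_ifs <;> rfl

theorem exists_disks {N : ℕ} [NeZero N] (rk : Gad N → ℕ) (hrk : Function.Injective rk) :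
    ∃ c : Vx N → EuclideanSpace ℝ (Fin 2), ∃ r : Vx N → ℝ, (∀ i, 0 < r i) ∧
      ∀ i j, i ≠ j → ((gr rk (fun _ => false)).Adj i j ↔ dist (c i) (c j) ≤ r i + r j) := by
  classical
  -- the separated points of every gadget
  have hsep : ∀ v : Gad N, ∃ τ : Fin 3 → ℝ, ∀ b : Bool × Bool, ∃ u : ℝ × ℝ, ∀ p,
      0 < sg (bit b p) * (dx (par (loc v p)) * u.1 + dy (par (loc v p)) * u.2 - τ p) := by
    intro v
    have hne : ∀ p q : Fin 3, p ≠ q → dx (par (loc v p)) * dy (par (loc v q)) -
        dx (par (loc v q)) * dy (par (loc v p)) ≠ 0 := by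
      intro p q hpq
      apply cross_ne (par_pos _) (par_pos _)
      intro h
      apply hpq
      rw [← loc_port v p, ← loc_port v q, par_inj h]
    exact four_pts (fun p => dx (par (loc v p))) (fun p => dy (par (loc v p)))
      (hne 0 1 (by decide)) (hne 1 2 (by decide)) (hne 2 0 (by decide))
  choose τ u hu using hsep
  -- the bound
  obtain ⟨K, hK⟩ : ∃ K : ℝ, ∀ (w : Gad N) (b : Bool × Bool) (v : Gad N) (p : Fin 3),
      |dx (par (loc v p)) * (u w b).1 + dy (par (loc v p)) * (u w b).2 - τ v p| < K := by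
    obtain ⟨K, hK⟩ := (Set.finite_range (fun q : (Gad N × (Bool × Bool)) × (Gad N × Fin 3) =>
      |dx (par (loc q.2.1 q.2.2)) * (u q.1.1 q.1.2).1 +
        dy (par (loc q.2.1 q.2.2)) * (u q.1.1 q.1.2).2 - τ q.2.1 q.2.2|)).bddAbove
    refine ⟨K + 1, fun w b v p => ?_⟩
    have := hK ⟨((w, b), (v, p)), rfl⟩
    simp only at this
    linarith
  have hKpos : 0 < K := lt_of_le_of_lt (abs_nonneg _)
    (hK (0, 0, false) (false, false) (0, 0, false) 0)
  have hsg : ∀ x, sg x = 1 ∨ sg x = -1 := by intro x; cases x <;> simp [sg]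
  have hsg2 : ∀ x, sg x ^ 2 = 1 := by intro x; cases x <;> simp [sg]
  -- distance between locations
  let D : (Loc N × Bool) → (Loc N × Bool) → ℝ := fun P Q =>
    Real.sqrt ((sg P.2 * dx (par P.1) - sg Q.2 * dx (par Q.1)) ^ 2 +
      (sg P.2 * dy (par P.1) - sg Q.2 * dy (par Q.1)) ^ 2)
  have hD : ∀ P Q, P ≠ Q → 0 < D P Q := by
    rintro ⟨l, x⟩ ⟨l', x'⟩ hne
    apply Real.sqrt_pos.2
    by_contra hc
    have h1 : sg x * dx (par l) - sg x' * dx (par l') = 0 := by
      have := sq_nonneg (sg x * dx (par l) - sg x' * dx (par l'))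
      have := sq_nonneg (sg x * dy (par l) - sg x' * dy (par l'))
      simp only at hc
      exact pow_eq_zero_iff (two_ne_zero) |>.1 (by linarith)
    have h2 : sg x * dy (par l) - sg x' * dy (par l') = 0 := by
      have := sq_nonneg (sg x * dx (par l) - sg x' * dx (par l'))
      have := sq_nonneg (sg x * dy (par l) - sg x' * dy (par l'))
      simp only at hc
      exact pow_eq_zero_iff (two_ne_zero) |>.1 (by linarith)
    have p1 := dy_pos (par_pos l)
    have p2 := dy_pos (par_pos l')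
    have hx : x = x' := by
      cases x <;> cases x' <;> simp [sg] at h2 ⊢ <;> linarith
    subst hx
    have h3 : dx (par l) * dy (par l') - dx (par l') * dy (par l) = 0 := by
      rcases hsg x with h | h <;> rw [h] at h1 h2
      · have e1 : dx (par l) = dx (par l') := by linarith
        have e2 : dy (par l) = dy (par l') := by linarith
        rw [e1, e2]; ring
      · have e1 : dx (par l) = dx (par l') := by linarith
        have e2 : dy (par l) = dy (par l') := by linarith
        rw [e1, e2]; ring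
    by_cases hl : l = l'
    · exact hne (by rw [hl])
    · exact cross_ne (par_pos l) (par_pos l') (fun h => hl (par_inj h)) h3
  obtain ⟨r, hr, hr0⟩ : ∃ r : ℝ, (∀ P Q, P ≠ Q → 2 * r < D P Q) ∧ 0 < r := by
    have h1 : ∀ᶠ r in 𝓝[>] (0 : ℝ), ∀ P Q : Loc N × Bool, P ≠ Q → 2 * r < D P Q := by
      rw [eventually_all]
      intro P
      rw [eventually_all]
      intro Q
      by_cases hPQ : P = Q
      · exact Eventually.of_forall fun r h => absurd hPQ h
      · have := ev_lt (f := fun r => 2 * r - D P Q) (by fun_prop) (by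
          have := hD P Q hPQ
          simp only [mul_zero]; linarith)
        filter_upwards [this] with r h _
        linarith
    obtain ⟨r, hr⟩ := (h1.and self_mem_nhdsWithin).exists
    exact ⟨r, hr.1, hr.2⟩
  let c : ℝ → Vx N → EuclideanSpace ℝ (Fin 2) := fun e i => match i with
    | Sum.inl (w, b) => !₂[e * (u w b).1, e * (u w b).2]
    | Sum.inr (v, p, x) => !₂[(1 + r) * (sg x * dx (par (loc v p))), (1 + r) * (sg x * dy (par (loc v p)))]
  let R : ℝ → Vx N → ℝ := fun e i => match i with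
    | Sum.inl (w, _) => 1 + e * (K * rk w)
    | Sum.inr (v, p, x) => r + e * (-(K * rk v) - sg x * τ v p)
  have hpos : ∀ᶠ e in 𝓝[>] (0 : ℝ), ∀ i, 0 < R e i := by
    rw [eventually_all]
    rintro (⟨w, b⟩ | ⟨v, p, x⟩)
    · have := ev_lt (f := fun e => -(1 + e * (K * rk w))) (by fun_prop) (by simp)
      filter_upwards [this] with e h
      simp only [R]; linarith
    · have := ev_lt (f := fun e => -(r + e * (-(K * rk v) - sg x * τ v p))) (by fun_prop)
        (by simp [hr0])
      filter_upwards [this] with e h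
      simp only [R]; linarith
  -- inner against outer
  have hMO : ∀ (w : Gad N) (b : Bool × Bool) (v : Gad N) (p : Fin 3) (x : Bool),
      ∀ᶠ e in 𝓝[>] (0 : ℝ), ((rk v < rk w ∨ (v = w ∧ bit b p = x)) ↔
        dist (c e (Sum.inl (w, b))) (c e (Sum.inr (v, p, x))) ≤
          R e (Sum.inl (w, b)) + R e (Sum.inr (v, p, x))) := by
    intro w b v p x
    have hn : (sg x * dx (par (loc v p))) ^ 2 + (sg x * dy (par (loc v p))) ^ 2 = 1 := by
      rw [mul_pow, mul_pow, hsg2, one_mul, one_mul, dxy]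
    have hA : (0 : ℝ) < 1 + r := by linarith
    set g := sg x * (dx (par (loc v p)) * (u w b).1 + dy (par (loc v p)) * (u w b).2 - τ v p) +
      K * ((rk w : ℝ) - rk v) with hg
    have hgeq : sg x * dx (par (loc v p)) * (u w b).1 + sg x * dy (par (loc v p)) * (u w b).2 +
        (K * rk w + (-(K * rk v) - sg x * τ v p)) = g := by rw [hg]; ring
    have habs : |sg x * (dx (par (loc v p)) * (u w b).1 + dy (par (loc v p)) * (u w b).2 - τ v p)| < K := by
      rw [abs_mul]
      have : |sg x| = 1 := by rcases hsg x with h | h <;> rw [h] <;> simp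
      rw [this, one_mul]
      exact hK w b v p
    rw [abs_lt] at habs
    by_cases hadj : rk v < rk w ∨ (v = w ∧ bit b p = x)
    · have hgpos : 0 < g := by
        rcases hadj with h | ⟨rfl, rfl⟩
        · have : (rk v : ℝ) + 1 ≤ rk w := by exact_mod_cast h
          have : K * 1 ≤ K * ((rk w : ℝ) - rk v) := mul_le_mul_of_nonneg_left (by linarith) hKpos.le
          rw [hg]; linarith
        · rw [hg]
          have := hu v b p
          simpa using this
      have := tangent_le hA hn (κ := K * rk w + (-(K * rk v) - sg x * τ v p))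
        (ux := (u w b).1) (uy := (u w b).2) (by rw [hgeq]; exact hgpos)
      filter_upwards [this] with e h
      simp only [hadj, true_iff, c, R, dist_pt]
      refine h.trans (le_of_eq ?_)
      ring
    · have hgneg : g < 0 := by
        push Not at hadj
        obtain ⟨h1, h2⟩ := hadj
        rcases lt_or_eq_of_le h1 with h | h
        · have : (rk w : ℝ) + 1 ≤ rk v := by exact_mod_cast h
          have : K * ((rk w : ℝ) - rk v) ≤ K * (-1) := mul_le_mul_of_nonneg_left (by linarith) hKpos.le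
          rw [hg]; linarith
        · have hwv : w = v := hrk h
          subst hwv
          have h3 := hu w b p
          have h4 : sg x = -sg (bit b p) := by
            have := h2 rfl
            revert this
            cases bit b p <;> cases x <;> simp [sg]
          rw [hg, h4]
          simp only [sub_self, mul_zero, add_zero]
          linarith
      have := tangent_lt hA hn (κ := K * rk w + (-(K * rk v) - sg x * τ v p))
        (ux := (u w b).1) (uy := (u w b).2) (by rw [hgeq]; exact hgneg)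
      filter_upwards [this] with e h
      simp only [hadj, false_iff, c, R, dist_pt, not_le]
      refine lt_of_eq_of_lt ?_ h
      ring
  have hall : ∀ᶠ e in 𝓝[>] (0 : ℝ), ∀ i j, i ≠ j →
      ((gr rk (fun _ => false)).Adj i j ↔ dist (c e i) (c e j) ≤ R e i + R e j) := by
    rw [eventually_all]
    intro i
    rw [eventually_all]
    intro j
    rcases i with ⟨w, b⟩ | ⟨v, p, x⟩ <;> rcases j with ⟨w', b'⟩ | ⟨v', p', x'⟩
    · have h1 : ∀ᶠ e in 𝓝[>] (0 : ℝ), Real.sqrt ((e * (u w b).1 - e * (u w' b').1) ^ 2 +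
          (e * (u w b).2 - e * (u w' b').2) ^ 2) - (1 + e * (K * rk w) + (1 + e * (K * rk w'))) < 0 :=
        ev_lt (by fun_prop) (by simp)
      filter_upwards [h1] with e h1 hij
      simp only [c, R, dist_pt]
      constructor
      · intro _; linarith
      · intro _ h; exact hij (by rw [h])
    · filter_upwards [hMO w b v' p' x'] with e h _
      exact h
    · filter_upwards [hMO w' b' v p x] with e h _
      rw [dist_comm, add_comm (R e (Sum.inr (v, p, x)))]
      exact h
    · by_cases hP : (loc v p, x) = (loc v' p', x')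
      · have h1 : ∀ᶠ e in 𝓝[>] (0 : ℝ), -(r + e * (-(K * rk v) - sg x * τ v p) +
            (r + e * (-(K * rk v') - sg x' * τ v' p'))) < 0 := ev_lt (by fun_prop) (by simp; linarith)
        filter_upwards [h1] with e h1 hij
        simp only [Prod.mk.injEq] at hP
        obtain ⟨hl, rfl⟩ := hP
        simp only [c, R, dist_pt, hl, sub_self]
        constructor
        · intro _
          simp only [ne_eq, OfNat.ofNat_ne_zero, not_false_eq_true, zero_pow, add_zero,
            Real.sqrt_zero]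
          linarith
        · intro _
          refine ⟨?_, hl, by simp⟩
          intro hs
          apply hij
          have h5 : v = v' ∧ p = p' := by
            obtain ⟨a, b, s⟩ := v
            obtain ⟨a', b', s'⟩ := v'
            simp only at hs
            subst hs
            unfold loc at hl
            cases s
            · simp at hl; simp [hl]
            · fin_cases p <;> fin_cases p' <;> simp at hl <;> simp [hl]
          rw [h5.1, h5.2]
      · have hd := hr _ _ hP
        have h1 : ∀ᶠ e in 𝓝[>] (0 : ℝ), (r + e * (-(K * rk v) - sg x * τ v p) +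
            (r + e * (-(K * rk v') - sg x' * τ v' p'))) - D (loc v p, x) (loc v' p', x') < 0 :=
          ev_lt (by fun_prop) (by simp; linarith)
        filter_upwards [h1] with e h1 hij
        simp only [c, R, dist_pt]
        constructor
        · rintro ⟨_, h2, h3⟩
          exfalso
          apply hP
          rw [h2]
          have : x = x' := by revert h3; cases x <;> cases x' <;> simp
          rw [this]
        · intro h
          exfalso
          have h2 : Real.sqrt (((1 + r) * (sg x * dx (par (loc v p))) - (1 + r) * (sg x' * dx (par (loc v' p')))) ^ 2 +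
              ((1 + r) * (sg x * dy (par (loc v p))) - (1 + r) * (sg x' * dy (par (loc v' p')))) ^ 2) =
              (1 + r) * D (loc v p, x) (loc v' p', x') := by
            have h5 : ((1 + r) * (sg x * dx (par (loc v p))) - (1 + r) * (sg x' * dx (par (loc v' p')))) ^ 2 +
              ((1 + r) * (sg x * dy (par (loc v p))) - (1 + r) * (sg x' * dy (par (loc v' p')))) ^ 2 =
              (1 + r) ^ 2 * ((sg x * dx (par (loc v p)) - sg x' * dx (par (loc v' p'))) ^ 2 +
                (sg x * dy (par (loc v p)) - sg x' * dy (par (loc v' p'))) ^ 2) := by ring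
            rw [h5, Real.sqrt_mul (by positivity), Real.sqrt_sq (by linarith)]
          rw [h2] at h
          have h3 : 0 < D (loc v p, x) (loc v' p', x') := hD _ _ hP
          nlinarith
  obtain ⟨e, he1, he2⟩ := (hpos.and hall).exists
  exact ⟨c e, R e, he1, he2⟩

end Pool.Agent.H794R3.Disk
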