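import Pool.Agent.H794R3.Disk.Game

set_option autoImplicit false

namespace Pool.Agent.H794R3.Disk

/-- having three pairwise nonadjacent neighbours -/
def Claw {V : Type*} (X : SimpleGraph V) (x : V) : Prop :=
  ∃ a b c, X.Adj x a ∧ X.Adj x b ∧ X.Adj x c ∧ a ≠ b ∧ a ≠ c ∧ b ≠ c ∧
    ¬ X.Adj a b ∧ ¬ X.Adj a c ∧ ¬ X.Adj b c

theorem Claw.map {V W : Type*} {X : SimpleGraph V} {Y : SimpleGraph W} (φ : X ≃g Y) {x : V}
    (h : Claw X x) : Claw Y (φ x) := by
  obtain ⟨a, b, c, h1, h2, h3, h4, h5, h6, h7, h8, h9⟩ := h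
  refine ⟨φ a, φ b, φ c, ?_, ?_, ?_, ?_, ?_, ?_, ?_, ?_, ?_⟩
  · exact (φ.map_rel_iff).2 h1
  · exact (φ.map_rel_iff).2 h2
  · exact (φ.map_rel_iff).2 h3
  · exact fun h => h4 (φ.injective h)
  · exact fun h => h5 (φ.injective h)
  · exact fun h => h6 (φ.injective h)
  · exact fun h => h7 ((φ.map_rel_iff).1 h)
  · exact fun h => h8 ((φ.map_rel_iff).1 h)
  · exact fun h => h9 ((φ.map_rel_iff).1 h)

theorem claw_inl {N : ℕ} (rk : Gad N → ℕ) (tw : Loc N → Bool) (a : Gad N × (Bool × Bool)) :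
    Claw (gr rk tw) (Sum.inl a) := by
  obtain ⟨w, b⟩ := a
  refine ⟨Sum.inr (w, 0, bit b 0), Sum.inr (w, 1, bit b 1), Sum.inr (w, 2, bit b 2),
    Or.inr ⟨rfl, rfl⟩, Or.inr ⟨rfl, rfl⟩, Or.inr ⟨rfl, rfl⟩, ?_, ?_, ?_, ?_, ?_, ?_⟩
  · simp
  · simp
  · simp
  · exact fun h => h.1 rfl
  · exact fun h => h.1 rfl
  · exact fun h => h.1 rfl

theorem loc_inj {N : ℕ} {v v' : Gad N} {p p' : Fin 3} (h : v.2.2 = v'.2.2)
    (hl : loc v p = loc v' p') : v = v' ∧ p = p' := by
  obtain ⟨a, b, c⟩ := v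
  obtain ⟨a', b', c'⟩ := v'
  simp only at h
  subst h
  unfold loc at hl
  cases c
  · simp at hl
    simp [hl]
  · fin_cases p <;> fin_cases p' <;> simp at hl <;> simp [hl]

theorem cross_uniq {N : ℕ} {rk : Gad N → ℕ} {tw : Loc N → Bool} {x y z : Gad N × Fin 3 × Bool}
    (h1 : (gr rk tw).Adj (Sum.inr x) (Sum.inr y)) (h2 : (gr rk tw).Adj (Sum.inr x) (Sum.inr z)) :
    y = z := by
  obtain ⟨v, p, x⟩ := x
  obtain ⟨v1, p1, x1⟩ := y
  obtain ⟨v2, p2, x2⟩ := z
  obtain ⟨a1, a2, a3⟩ := h1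
  obtain ⟨b1, b2, b3⟩ := h2
  have e1 : v1.2.2 = v2.2.2 := by
    revert a1 b1
    cases v.2.2 <;> cases v1.2.2 <;> cases v2.2.2 <;> simp
  obtain ⟨rfl, rfl⟩ := loc_inj e1 (a2.symm.trans b2)
  have e2 : xor x x1 = xor x x2 := a3.trans b3.symm
  have e3 : x1 = x2 := by
    revert e2
    cases x <;> cases x1 <;> cases x2 <;> simp
  rw [e3]

theorem not_claw_inr {N : ℕ} (rk : Gad N → ℕ) (tw : Loc N → Bool) (x : Gad N × Fin 3 × Bool) :
    ¬ Claw (gr rk tw) (Sum.inr x) := by
  rintro ⟨a, b, c, h1, h2, h3, h4, h5, h6, h7, h8, h9⟩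
  have key : ∀ a b : Vx N, (gr rk tw).Adj (Sum.inr x) a → (gr rk tw).Adj (Sum.inr x) b → a ≠ b →
      ¬ (gr rk tw).Adj a b → (a.isLeft = true ∧ b.isLeft = false) ∨
        (a.isLeft = false ∧ b.isLeft = true) := by
    intro a b ha hb hab hn
    rcases a with a | a <;> rcases b with b | b
    · exfalso
      apply hn
      exact fun h => hab (by rw [h])
    · left; exact ⟨rfl, rfl⟩
    · right; exact ⟨rfl, rfl⟩
    · exfalso
      apply hab
      rw [cross_uniq ha hb]
  have k1 := key a b h1 h2 h4 h7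
  have k2 := key a c h1 h3 h5 h8
  have k3 := key b c h2 h3 h6 h9
  clear key h1 h2 h3 h4 h5 h6 h7 h8 h9
  generalize a.isLeft = A at k1 k2 k3
  generalize b.isLeft = B at k1 k2 k3
  generalize c.isLeft = C at k1 k2 k3
  revert k1 k2 k3
  cases A <;> cases B <;> cases C <;> decide

/-- the outer neighbours of an inner vertex -/
def NO {N : ℕ} (rk : Gad N → ℕ) (a : Gad N × (Bool × Bool)) : Set (Gad N × Fin 3 × Bool) :=
  {y | rk y.1 < rk a.1 ∨ (y.1 = a.1 ∧ bit a.2 y.2.1 = y.2.2)}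

/-- the inner neighbours of an outer vertex -/
def NM {N : ℕ} (rk : Gad N → ℕ) (y : Gad N × Fin 3 × Bool) : Set (Gad N × (Bool × Bool)) :=
  {a | rk y.1 < rk a.1 ∨ (y.1 = a.1 ∧ bit a.2 y.2.1 = y.2.2)}

theorem NO_lt {N : ℕ} [NeZero N] {rk : Gad N → ℕ} {a a' : Gad N × (Bool × Bool)}
    (h : rk a.1 < rk a'.1) : (NO rk a).ncard < (NO rk a').ncard := by
  apply Set.ncard_lt_ncard _ (Set.toFinite _)
  refine ⟨fun y hy => ?_, fun hc => ?_⟩
  · rcases hy with hy | ⟨hy, _⟩
    · exact Or.inl (hy.trans h)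
    · left; rw [hy]; exact h
  · have h1 : (a'.1, (0 : Fin 3), bit a'.2 0) ∈ NO rk a' := Or.inr ⟨rfl, rfl⟩
    rcases hc h1 with h2 | ⟨h2, _⟩
    · simp only at h2; omega
    · simp only at h2; rw [h2] at h; exact lt_irrefl _ h

theorem NM_lt {N : ℕ} [NeZero N] {rk : Gad N → ℕ} {y y' : Gad N × Fin 3 × Bool}
    (h : rk y.1 < rk y'.1) : (NM rk y').ncard < (NM rk y).ncard := by
  apply Set.ncard_lt_ncard _ (Set.toFinite _)
  refine ⟨fun a ha => ?_, fun hc => ?_⟩
  · rcases ha with ha | ⟨ha, _⟩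
    · exact Or.inl (h.trans ha)
    · left; rw [← ha]; exact h
  · obtain ⟨b, hb⟩ : ∃ b : Bool × Bool, bit b y'.2.1 ≠ y'.2.2 := by
      generalize y'.2.1 = p
      generalize y'.2.2 = x
      revert p x
      decide
    have h1 : (y'.1, b) ∈ NM rk y := Or.inl h
    rcases hc h1 with h2 | ⟨_, h2⟩
    · simp only at h2; omega
    · exact hb h2

/-- the gadget at the other end of the edge at a port -/
def opp {N : ℕ} (v : Gad N) (p : Fin 3) : Gad N :=
  if v.2.2 = false then
    (if p = 0 then (v.1, v.2.1, true) else if p = 1 then (v.1 - 1, v.2.1, true)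
      else (v.1, v.2.1 - 1, true))
  else
    (if p = 0 then (v.1, v.2.1, false) else if p = 1 then (v.1 + 1, v.2.1, false)
      else (v.1, v.2.1 + 1, false))

theorem opp_side {N : ℕ} (v : Gad N) (p : Fin 3) : v.2.2 ≠ (opp v p).2.2 := by
  obtain ⟨a, b, c⟩ := v
  unfold opp
  cases c <;> fin_cases p <;> simp

theorem opp_loc {N : ℕ} (v : Gad N) (p : Fin 3) : loc v p = loc (opp v p) p := by
  obtain ⟨a, b, c⟩ := v
  unfold opp loc
  cases c <;> fin_cases p <;> simp

theorem eq_opp {N : ℕ} {v u : Gad N} {p q : Fin 3} (h : v.2.2 ≠ u.2.2) (hl : loc v p = loc u q) :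
    q = p ∧ u = opp v p := by
  have h1 := opp_side v p
  have h2 := opp_loc v p
  have e1 : u.2.2 = (opp v p).2.2 := by
    revert h h1
    cases v.2.2 <;> cases u.2.2 <;> cases (opp v p).2.2 <;> simp
  obtain ⟨h3, h4⟩ := loc_inj e1 (hl.symm.trans h2)
  exact ⟨h4, h3⟩

theorem opp_port {N : ℕ} (h1 : (1 : ZMod N) ≠ 0) {v : Gad N} {p q : Fin 3}
    (h : opp v p = opp v q) : p = q := by
  obtain ⟨a, b, c⟩ := v
  unfold opp at h
  have ne : ∀ a : ZMod N, a ≠ a - 1 := fun a h => h1 (by linear_combination h)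
  cases c <;> fin_cases p <;> fin_cases q <;> simp [h1, ne] at h ⊢

theorem sum_contra {N : ℕ} [NeZero N] (s : Gad N → Fin 3 → Bool)
    (hg : ∀ v, xor (s v 0) (s v 1) = s v 2)
    (hc : ∀ v p, xor (s v p) (s (opp v p) p) = tw1 (loc v p)) : False := by
  classical
  let σ : Gad N → Fin 3 → ZMod 2 := fun v p => if s v p = true then 1 else 0
  have hx : ∀ x y z : Bool, xor x y = z → (if x = true then (1 : ZMod 2) else 0) +
      (if y = true then 1 else 0) = if z = true then 1 else 0 := by decide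
  have g1 : ∀ v, σ v 0 + σ v 1 + σ v 2 = 0 := by
    intro v
    have h1 := hx _ _ _ (hg v)
    simp only [σ]
    rw [h1]
    cases s v 2 <;> decide
  have c0 : ∀ a b, σ (a, b, false) 0 + σ (a, b, true) 0 = if a = 0 ∧ b = 0 then 1 else 0 := by
    intro a b
    have h1 := hx _ _ _ (hc (a, b, false) 0)
    have h2 : opp ((a, b, false) : Gad N) 0 = (a, b, true) := by simp [opp]
    rw [h2] at h1
    simp only [σ]
    rw [h1]
    simp [tw1, loc]
  have c1 : ∀ a b, σ (a + 1, b, false) 1 + σ (a, b, true) 1 = 0 := by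
    intro a b
    have h1 := hx _ _ _ (hc (a + 1, b, false) 1)
    have h2 : opp ((a + 1, b, false) : Gad N) 1 = (a, b, true) := by simp [opp]
    rw [h2] at h1
    simp only [σ]
    rw [h1]
    simp [tw1, loc]
  have c2 : ∀ a b, σ (a, b + 1, false) 2 + σ (a, b, true) 2 = 0 := by
    intro a b
    have h1 := hx _ _ _ (hc (a, b + 1, false) 2)
    have h2 : opp ((a, b + 1, false) : Gad N) 2 = (a, b, true) := by simp [opp]
    rw [h2] at h1
    simp only [σ]
    rw [h1]
    simp [tw1, loc]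
  have t0 : ∑ a : ZMod N, ∑ b : ZMod N, (σ (a, b, false) 0 + σ (a, b, true) 0) = 1 := by
    simp only [c0]
    rw [Finset.sum_eq_single 0, Finset.sum_eq_single 0]
    · simp
    · intro b _ hb; simp [hb]
    · simp
    · intro a _ ha; simp [ha]
    · simp
  have t1 : ∑ a : ZMod N, ∑ b : ZMod N, (σ (a, b, false) 1 + σ (a, b, true) 1) = 0 := by
    simp only [Finset.sum_add_distrib]
    have e : ∑ a : ZMod N, ∑ b : ZMod N, σ (a, b, false) 1 =
        ∑ a : ZMod N, ∑ b : ZMod N, σ (a + 1, b, false) 1 :=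
      (Equiv.sum_comp (Equiv.addRight (1 : ZMod N)) (fun a => ∑ b : ZMod N, σ (a, b, false) 1)).symm
    rw [e, ← Finset.sum_add_distrib]
    apply Finset.sum_eq_zero
    intro a _
    rw [← Finset.sum_add_distrib]
    exact Finset.sum_eq_zero fun b _ => c1 a b
  have t2 : ∑ a : ZMod N, ∑ b : ZMod N, (σ (a, b, false) 2 + σ (a, b, true) 2) = 0 := by
    apply Finset.sum_eq_zero
    intro a _
    rw [Finset.sum_add_distrib]
    have e : ∑ b : ZMod N, σ (a, b, false) 2 = ∑ b : ZMod N, σ (a, b + 1, false) 2 :=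
      (Equiv.sum_comp (Equiv.addRight (1 : ZMod N)) (fun b => σ (a, b, false) 2)).symm
    rw [e, ← Finset.sum_add_distrib]
    exact Finset.sum_eq_zero fun b _ => c2 a b
  have tot : ∑ a : ZMod N, ∑ b : ZMod N, ((σ (a, b, false) 0 + σ (a, b, true) 0) +
      (σ (a, b, false) 1 + σ (a, b, true) 1) + (σ (a, b, false) 2 + σ (a, b, true) 2)) = 0 := by
    apply Finset.sum_eq_zero
    intro a _
    apply Finset.sum_eq_zero
    intro b _
    have h1 := g1 (a, b, false)
    have h2 := g1 (a, b, true)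
    linear_combination h1 + h2
  simp only [Finset.sum_add_distrib] at tot t0 t1 t2
  have : (1 : ZMod 2) = 0 := by linear_combination tot - t0 - t1 - t2
  exact absurd this (by decide)

theorem noniso {N : ℕ} [NeZero N] (h1 : (1 : ZMod N) ≠ 0) (rk : Gad N → ℕ)
    (hrk : Function.Injective rk) : ¬ Nonempty (gr rk tw0 ≃g gr rk tw1) := by
  classical
  rintro ⟨φ⟩
  have hM : ∀ a, ∃ a', φ (Sum.inl a) = Sum.inl a' := by
    intro a
    have h := (claw_inl rk tw0 a).map φ
    rcases hφ : φ (Sum.inl a) with a' | y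
    · exact ⟨a', rfl⟩
    · rw [hφ] at h
      exact absurd h (not_claw_inr rk tw1 y)
  have hO : ∀ y, ∃ y', φ (Sum.inr y) = Sum.inr y' := by
    intro y
    rcases hφ : φ (Sum.inr y) with a' | y'
    · exfalso
      have h := (claw_inl rk tw1 a').map φ.symm
      rw [← hφ, φ.symm_apply_apply] at h
      exact not_claw_inr rk tw0 y h
    · exact ⟨y', rfl⟩
  choose fM hfM using hM
  choose fO hfO using hO
  have iM : Function.Injective fM := fun a b h => by
    have : φ (Sum.inl a) = φ (Sum.inl b) := by rw [hfM, hfM, h]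
    exact Sum.inl_injective (φ.injective this)
  have iO : Function.Injective fO := fun a b h => by
    have : φ (Sum.inr a) = φ (Sum.inr b) := by rw [hfO, hfO, h]
    exact Sum.inr_injective (φ.injective this)
  have sM : Function.Surjective fM := Finite.surjective_of_injective iM
  have sO : Function.Surjective fO := Finite.surjective_of_injective iO
  have adjMO : ∀ a y, (y ∈ NO rk a ↔ fO y ∈ NO rk (fM a)) := by
    intro a y
    have h := φ.map_rel_iff (a := Sum.inl a) (b := Sum.inr y)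
    rw [hfM, hfO] at h
    exact h.symm
  have hNO : ∀ a, (NO rk a).ncard = (NO rk (fM a)).ncard := by
    intro a
    rw [← Set.ncard_image_of_injective _ iO]
    congr 1
    ext y
    constructor
    · rintro ⟨z, hz, rfl⟩
      exact (adjMO a z).1 hz
    · intro hy
      obtain ⟨z, rfl⟩ := sO y
      exact ⟨z, (adjMO a z).2 hy, rfl⟩
  have hNM : ∀ y, (NM rk y).ncard = (NM rk (fO y)).ncard := by
    intro y
    rw [← Set.ncard_image_of_injective _ iM]
    congr 1
    ext a
    constructor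
    · rintro ⟨z, hz, rfl⟩
      exact (adjMO z y).1 hz
    · intro hy
      obtain ⟨z, rfl⟩ := sM a
      exact ⟨z, (adjMO z y).2 hy, rfl⟩
  have gM : ∀ a, (fM a).1 = a.1 := by
    intro a
    apply hrk
    rcases lt_trichotomy (rk (fM a).1) (rk a.1) with h | h | h
    · have := NO_lt h; rw [hNO a] at this; exact absurd this (lt_irrefl _)
    · exact h
    · have := NO_lt h; rw [hNO a] at this; exact absurd this (lt_irrefl _)
  have gO : ∀ y, (fO y).1 = y.1 := by
    intro y
    apply hrk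
    rcases lt_trichotomy (rk (fO y).1) (rk y.1) with h | h | h
    · have := NM_lt h; rw [hNM y] at this; exact absurd this (lt_irrefl _)
    · exact h
    · have := NM_lt h; rw [hNM y] at this; exact absurd this (lt_irrefl _)
  have crs : ∀ v p x, ((fO (v, p, x)).1).2.2 ≠ ((fO (opp v p, p, x)).1).2.2 ∧
      loc (fO (v, p, x)).1 (fO (v, p, x)).2.1 = loc (fO (opp v p, p, x)).1 (fO (opp v p, p, x)).2.1 ∧
      xor (fO (v, p, x)).2.2 (fO (opp v p, p, x)).2.2 = tw1 (loc (fO (v, p, x)).1 (fO (v, p, x)).2.1) := by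
    intro v p x
    have h0 : (gr rk tw0).Adj (Sum.inr (v, p, x)) (Sum.inr (opp v p, p, x)) :=
      ⟨opp_side v p, opp_loc v p, by simp [tw0]⟩
    have h := (φ.map_rel_iff).2 h0
    rw [hfO, hfO] at h
    exact h
  have pO : ∀ v p x, (fO (v, p, x)).2.1 = p := by
    intro v p x
    obtain ⟨h2, h3, _⟩ := crs v p x
    obtain ⟨_, h5⟩ := eq_opp h2 h3
    rw [gO, gO] at h5
    exact (opp_port h1 h5).symm
  let s : Gad N → Fin 3 → Bool := fun v p => (fO (v, p, false)).2.2
  have e1 : ∀ v p, fO (v, p, false) = (v, p, s v p) := by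
    intro v p
    exact Prod.ext (gO _) (Prod.ext (pO _ _ _) rfl)
  refine sum_contra s ?_ ?_
  · intro v
    have key : ∀ p, bit (fM (v, (false, false))).2 p = s v p := by
      intro p
      have h0 : (v, p, false) ∈ NO rk (v, (false, false)) := by
        right
        refine ⟨rfl, ?_⟩
        show bit (false, false) p = false
        revert p; decide
      have h := (adjMO _ _).1 h0
      rw [e1] at h
      rcases h with h | ⟨_, h⟩
      · rw [gM] at h
        exact absurd h (lt_irrefl _)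
      · exact h
    rw [← key 0, ← key 1, ← key 2]
    simp [bit]
  · intro v p
    have h := (crs v p false).2.2
    rw [e1, e1] at h
    exact h

end Pool.Agent.H794R3.Disk
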